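import Pool.Agent.H.MP_8704cc_co.P

set_option autoImplicit false

namespace Pool.Agent.Results.MP_8704cc_co.System

open Pool.Agent.H.MP_8704cc_co

theorem result : (∃! x : PowerSeries (Polynomial ℚ) × PowerSeries (Polynomial ℚ) ×
      PowerSeries (Polynomial ℚ), Sys x.1 x.2.1 x.2.2) ∧
    ∀ C B E : PowerSeries (Polynomial ℚ), Sys C B E →
      (PowerSeries.coeff 0 C).eval 1 = 0 ∧
        ∀ n : ℕ, 1 ≤ n → (PowerSeries.coeff n C).eval 1 = (cnt n : ℚ) := by
  refine ⟨⟨(C0, B0, E0), sys_sol, fun x hx => ?_⟩, fun C B E h => ?_⟩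
  · have := s4_uniq (sys_iff.1 hx) (sys_iff.1 sys_sol)
    exact Prod.ext this.1 (Prod.ext this.2.1 this.2.2.2)
  · refine ⟨?_, fun n hn => ?_⟩
    · have := congrArg PowerSeries.constantCoeff h.1
      simp at this
      simp [this]
    · rw [(s4_uniq (sys_iff.1 h) (sys_iff.1 sys_sol)).1, C0_cnt hn]

end Pool.Agent.Results.MP_8704cc_co.System
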